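import Pool.Agent.N798.T.Stm
import Pool.Agent.Y555.VK.Lw
import Pool.Agent.Y727.VK.Pr
import Pool.Agent.Y748.VK.Wneg

/-!
# Project T: the weight of the primes
-/

set_option autoImplicit false

namespace Pool.Agent.N31.T

open Finset MeasureTheory Filter Topology
open Pool.Agent.H376R2.MR (er)
open Pool.Agent.Y957.VK Pool.Agent.N798.T

theorem norm_er (τ x : ℝ) : ‖er τ x‖ = 1 := by
  unfold er
  rw [Complex.norm_exp_ofReal_mul_I]

theorem sum_shift {M : Type} [AddCommMonoid M] (f : ℕ → M) (N L : ℕ) :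
    ∑ n ∈ Ioc N (N + L), f n = ∑ n ∈ Icc 1 L, f (N + n) := by
  induction L with
  | zero => simp
  | succ L ih =>
    rw [← add_assoc, Finset.sum_Ioc_succ_top (by omega), ih, Finset.sum_Icc_succ_top (by omega)]
    rfl

theorem sum_Icc_split {M : Type} [AddCommGroup M] (f : ℕ → M) {N L : ℕ} (h : N ≤ L) :
    ∑ n ∈ Ioc N L, f n = ∑ n ∈ Icc 1 L, f n - ∑ n ∈ Icc 1 N, f n := by
  have e : ∀ m : ℕ, Icc 1 m = Ioc 0 m := fun m => Finset.Icc_succ_left_eq_Ioc _ _
  rw [e, e, eq_sub_iff_add_eq, add_comm]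
  exact Finset.sum_Ioc_consecutive f (Nat.zero_le _) h

/-- division by the logarithm -/
theorem abel_log {N M : ℕ} (hN : 2 ≤ N) (hNM : N ≤ M) (u : ℕ → ℂ) (D : ℝ)
    (hD : ∀ n, N ≤ n → n ≤ M → ‖∑ m ∈ Ioc N n, u m‖ ≤ D) :
    ‖∑ n ∈ Ioc N M, u n / (Real.log n : ℂ)‖ ≤ 2 * D := by
  obtain ⟨L, rfl⟩ : ∃ L, M = N + L := ⟨M - N, by omega⟩
  have hNR : (2 : ℝ) ≤ N := by exact_mod_cast hN
  have hl2 : 0 < Real.log 2 := Real.log_pos (by norm_num)
  have hlog : ∀ n : ℕ, Real.log 2 ≤ Real.log ((N : ℝ) + n) := fun n =>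
    Real.log_le_log (by norm_num) (by have : (0 : ℝ) ≤ n := Nat.cast_nonneg n; linarith)
  have h1 := Pool.Agent.Y748.VK.abel_norm (fun n => Real.log 2 / Real.log ((N : ℝ) + n))
    (fun n => u (N + n)) L D ?_ ?_ ?_ ?_
  · rw [sum_shift]
    have h2 : ∑ n ∈ Icc 1 L, ((Real.log 2 / Real.log ((N : ℝ) + n) : ℝ) : ℂ) * u (N + n) =
        (Real.log 2 : ℂ) * ∑ n ∈ Icc 1 L, u (N + n) / (Real.log ((N + n : ℕ) : ℝ) : ℂ) := by
      rw [Finset.mul_sum]
      refine Finset.sum_congr rfl fun n _ => ?_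
      push_cast
      ring
    rw [h2, norm_mul, Complex.norm_real, Real.norm_of_nonneg hl2.le] at h1
    have hD0 : 0 ≤ D := (norm_nonneg _).trans (hD N le_rfl (by omega))
    have h3 : 1 / 2 ≤ Real.log 2 := by
      have := Real.log_two_gt_d9
      linarith
    have h4 := norm_nonneg (∑ n ∈ Icc 1 L, u (N + n) / (Real.log ((N + n : ℕ) : ℝ) : ℂ))
    nlinarith
  · intro n m hnm
    have h1 : (n : ℝ) ≤ m := by exact_mod_cast hnm
    have h0 : (0 : ℝ) ≤ n := Nat.cast_nonneg n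
    have h2 : Real.log ((N : ℝ) + n) ≤ Real.log ((N : ℝ) + m) :=
      Real.log_le_log (by linarith) (by linarith)
    exact div_le_div_of_nonneg_left hl2.le (by linarith [hlog n]) h2
  · intro n
    have := hlog n
    exact div_nonneg hl2.le (by linarith)
  · rw [div_le_one (by linarith [hlog 0])]
    exact hlog 0
  · intro n hn
    rw [← sum_shift u N n]
    exact hD _ (by omega) (by omega)

/-- the weight `Λ - 1` on dyadic intervals -/
theorem lam_ioc (h : Neg lamw) (A K : ℕ) : ∃ C : ℝ, 0 ≤ C ∧ ∀ (N M : ℕ) (τ : ℝ), 2 ≤ N → N ≤ M →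
    M ≤ 2 * N → |τ| ≤ (N : ℝ) ^ A →
      ‖∑ n ∈ Ioc N M, lamw n * er τ (Real.log n)‖ ≤ C * N / (Real.log N) ^ K := by
  obtain ⟨C, hC⟩ := h A K
  refine ⟨3 * |C|, by positivity, fun N M τ hN hNM hM hτ => ?_⟩
  have hNR : (2 : ℝ) ≤ N := by exact_mod_cast hN
  have hMR : (N : ℝ) ≤ M := by exact_mod_cast hNM
  have hM2 : (M : ℝ) ≤ 2 * N := by exact_mod_cast hM
  have hlN : 0 < Real.log N := Real.log_pos (by linarith)
  have hlK : 0 < Real.log N ^ K := pow_pos hlN K
  have hlM : Real.log N ≤ Real.log M := Real.log_le_log (by linarith) hMR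
  rw [sum_Icc_split _ hNM]
  have h1 := hC N τ hN hτ
  have h2 := hC M τ (by omega) (hτ.trans (pow_le_pow_left₀ (by linarith) hMR A))
  have h3 : C * N / Real.log N ^ K ≤ |C| * N / Real.log N ^ K :=
    div_le_div_of_nonneg_right (mul_le_mul_of_nonneg_right (le_abs_self C) (by linarith)) hlK.le
  have h4 : C * M / Real.log M ^ K ≤ |C| * (2 * N) / Real.log N ^ K := by
    have h5 : Real.log N ^ K ≤ Real.log M ^ K := pow_le_pow_left₀ hlN.le hlM K
    calc C * M / Real.log M ^ K ≤ |C| * (2 * N) / Real.log M ^ K := by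
          refine div_le_div_of_nonneg_right ?_ (by positivity)
          exact mul_le_mul (le_abs_self C) hM2 (by linarith) (abs_nonneg _)
      _ ≤ |C| * (2 * N) / Real.log N ^ K :=
          div_le_div_of_nonneg_left (by positivity) hlK h5
  calc _ ≤ _ := norm_sub_le _ _
    _ ≤ |C| * (2 * N) / Real.log N ^ K + |C| * N / Real.log N ^ K :=
        add_le_add (h2.trans h4) (h1.trans h3)
    _ = _ := by ring

/-- the logarithm on the primes -/
noncomputable def pl (n : ℕ) : ℝ := if n.Prime then Real.log n else 0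

theorem pl_le (n : ℕ) : pl n ≤ ArithmeticFunction.vonMangoldt n := by
  unfold pl
  split_ifs with h
  · rw [ArithmeticFunction.vonMangoldt_apply_prime h]
  · exact ArithmeticFunction.vonMangoldt_nonneg

/-- `log ^ K` is small -/
theorem log_small (K : ℕ) {N : ℕ} (hN : 2 ≤ N) :
    (Real.log N) ^ K ≤ (2 * ((K : ℝ) + 1)) ^ (K + 1) * (2 * N) := by
  have hNR : (2 : ℝ) ≤ N := by exact_mod_cast hN
  have hlN : 0 < Real.log N := Real.log_pos (by linarith)
  have h1 := Pool.Agent.Y748.VK.logpow K N hN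
  have h2 := Pool.Agent.Y748.VK.log3 N
  have h3 : Real.log N ≤ Real.log ((N : ℝ) + 3) := Real.log_le_log (by linarith) (by linarith)
  have h4 : Real.sqrt N ≤ N := by
    rw [Real.sqrt_le_left (by linarith)]
    nlinarith
  calc Real.log N ^ K ≤ Real.log ((N : ℝ) + 3) ^ K := pow_le_pow_left₀ hlN.le h3 K
    _ ≤ Real.log ((N : ℝ) + 3) ^ (K + 1) := pow_le_pow_right₀ h2 (Nat.le_succ K)
    _ ≤ _ := h1
    _ ≤ _ := mul_le_mul_of_nonneg_left (by linarith) (by positivity)

/-- prime powers -/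
theorem pow_ioc (K : ℕ) : ∃ C : ℝ, 0 ≤ C ∧ ∀ (N M : ℕ) (τ : ℝ), 2 ≤ N → N ≤ M → M ≤ 2 * N →
    ‖∑ n ∈ Ioc N M, ((ArithmeticFunction.vonMangoldt n - pl n : ℝ) : ℂ) * er τ (Real.log n)‖ ≤
      C * N / (Real.log N) ^ K := by
  refine ⟨16 * (2 * ((K : ℝ) + 1)) ^ (K + 1), by positivity, fun N M τ hN hNM hM => ?_⟩
  have hNR : (2 : ℝ) ≤ N := by exact_mod_cast hN
  have hMR : (N : ℝ) ≤ M := by exact_mod_cast hNM
  have hM2 : (M : ℝ) ≤ 2 * N := by exact_mod_cast hM
  have hlN : 0 < Real.log N := Real.log_pos (by linarith)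
  have hlK : 0 < Real.log N ^ K := pow_pos hlN K
  have hnn : ∀ n : ℕ, 0 ≤ ArithmeticFunction.vonMangoldt n - pl n := fun n =>
    sub_nonneg.2 (pl_le n)
  have h1 : ‖∑ n ∈ Ioc N M, ((ArithmeticFunction.vonMangoldt n - pl n : ℝ) : ℂ) *
      er τ (Real.log n)‖ ≤ ∑ n ∈ Icc 1 M, (ArithmeticFunction.vonMangoldt n - pl n) := by
    refine (norm_sum_le _ _).trans ?_
    have h2 : ∀ n ∈ Ioc N M, ‖((ArithmeticFunction.vonMangoldt n - pl n : ℝ) : ℂ) *
        er τ (Real.log n)‖ = ArithmeticFunction.vonMangoldt n - pl n := by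
      intro n _
      rw [norm_mul, norm_er, mul_one, Complex.norm_real, Real.norm_of_nonneg (hnn n)]
    rw [Finset.sum_congr rfl h2]
    refine Finset.sum_le_sum_of_subset_of_nonneg ?_ fun n _ _ => hnn n
    intro n hn
    rw [Finset.mem_Ioc] at hn
    rw [Finset.mem_Icc]
    omega
  have h2 : ∑ n ∈ Icc 1 M, (ArithmeticFunction.vonMangoldt n - pl n) =
      Chebyshev.psi M - Chebyshev.theta M := by
    rw [Finset.sum_sub_distrib, Pool.Agent.Y727.VK.psi_eq, Pool.Agent.Y727.VK.theta_eq,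
      Finset.sum_filter]
    rfl
  have h3 := Chebyshev.abs_psi_sub_theta_le_sqrt_mul_log (x := (M : ℝ)) (by linarith)
  have h4 := (le_abs_self _).trans h3
  rw [← h2] at h4
  refine h1.trans (h4.trans ?_)
  rw [le_div_iff₀ hlK]
  have h5 : Real.sqrt M ≤ 2 * Real.sqrt N := by
    rw [Real.sqrt_le_left (by positivity), mul_pow, Real.sq_sqrt (by linarith)]
    linarith
  have h6 : Real.log M ≤ 2 * Real.log ((N : ℝ) + 3) := by
    have e1 : Real.log M ≤ Real.log ((N : ℝ) ^ 2) :=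
      Real.log_le_log (by linarith) (by nlinarith)
    rw [Real.log_pow] at e1
    have e2 : Real.log N ≤ Real.log ((N : ℝ) + 3) := Real.log_le_log (by linarith) (by linarith)
    push_cast at e1
    linarith
  have h7 : Real.log N ^ K ≤ Real.log ((N : ℝ) + 3) ^ K :=
    pow_le_pow_left₀ hlN.le (Real.log_le_log (by linarith) (by linarith)) K
  have h8 := Pool.Agent.Y748.VK.logpow K N hN
  have h9 := Pool.Agent.Y748.VK.log3 N
  have hs : 0 ≤ Real.sqrt N := Real.sqrt_nonneg _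
  have hlM : 0 ≤ Real.log M := Real.log_nonneg (by linarith)
  calc 2 * Real.sqrt M * Real.log M * Real.log N ^ K ≤
      2 * (2 * Real.sqrt N) * (2 * Real.log ((N : ℝ) + 3)) * Real.log ((N : ℝ) + 3) ^ K := by
        gcongr
    _ = 8 * Real.sqrt N * Real.log ((N : ℝ) + 3) ^ (K + 1) := by ring
    _ ≤ 8 * Real.sqrt N * ((2 * ((K : ℝ) + 1)) ^ (K + 1) * (2 * Real.sqrt N)) :=
        mul_le_mul_of_nonneg_left h8 (by positivity)
    _ = 16 * (2 * ((K : ℝ) + 1)) ^ (K + 1) * (Real.sqrt N * Real.sqrt N) := by ring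
    _ = _ := by rw [Real.mul_self_sqrt (by linarith)]

/-- the sum of `1 / log` and the integral -/
theorem sum_int {N M : ℕ} (hN : 2 ≤ N) (hNM : N ≤ M) :
    |∑ n ∈ Ioc N M, 1 / Real.log n - ∫ u in (N : ℝ)..M, 1 / Real.log u| ≤ 1 / Real.log N := by
  have hNR : (2 : ℝ) ≤ N := by exact_mod_cast hN
  have hlN : 0 < Real.log N := Real.log_pos (by linarith)
  have hanti : AntitoneOn (fun u : ℝ => 1 / Real.log u) (Set.Icc (N : ℝ) M) := by
    intro x hx y _ hxy
    exact one_div_le_one_div_of_le (Real.log_pos (by linarith [hx.1]))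
      (Real.log_le_log (by linarith [hx.1]) hxy)
  have h1 := AntitoneOn.sum_le_integral_Ico hNM hanti
  have h2 := AntitoneOn.integral_le_sum_Ico hNM hanti
  have h3 : ∑ n ∈ Ioc N M, 1 / Real.log n = ∑ i ∈ Ico N M, 1 / Real.log ((i + 1 : ℕ) : ℝ) := by
    obtain ⟨L, rfl⟩ : ∃ L, M = N + L := ⟨M - N, by omega⟩
    clear h1 h2 hanti hNM
    induction L with
    | zero => simp
    | succ L ih =>
      rw [← add_assoc, Finset.sum_Ioc_succ_top (by omega), ih, Finset.sum_Ico_succ_top (by omega)]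
  have h4 : ∑ i ∈ Ico N M, 1 / Real.log (i : ℝ) - ∑ i ∈ Ico N M, 1 / Real.log ((i + 1 : ℕ) : ℝ) =
      1 / Real.log N - 1 / Real.log M := by
    rw [← Finset.sum_sub_distrib]
    obtain ⟨L, rfl⟩ : ∃ L, M = N + L := ⟨M - N, by omega⟩
    clear h1 h2 h3 hanti hNM
    induction L with
    | zero => simp
    | succ L ih =>
      rw [← add_assoc, Finset.sum_Ico_succ_top (by omega), ih]
      ring
  have h5 : 0 ≤ 1 / Real.log M := by
    have : (N : ℝ) ≤ M := by exact_mod_cast hNM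
    exact one_div_nonneg.2 (Real.log_nonneg (by linarith))
  rw [h3, abs_le]
  constructor <;> linarith

theorem core (h1 : Neg lamw) (h2 : S_WO) : S_WP := by
  have hdec : ∀ (N M : ℕ) (τ : ℝ),
      ∑ n ∈ Ioc N M, (pl n : ℂ) * er τ (Real.log n) =
        ∑ n ∈ Ioc N M, lamw n * er τ (Real.log n) + ∑ n ∈ Ioc N M, (1 : ℂ) * er τ (Real.log n) -
          ∑ n ∈ Ioc N M, ((ArithmeticFunction.vonMangoldt n - pl n : ℝ) : ℂ) *
            er τ (Real.log n) := by
    intro N M τ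
    rw [← Finset.sum_add_distrib, ← Finset.sum_sub_distrib]
    refine Finset.sum_congr rfl fun n _ => ?_
    unfold lamw
    push_cast
    ring
  have hdiv : ∀ (n : ℕ) (z : ℂ), (if n.Prime then (1 : ℂ) else 0) * z =
      (pl n : ℂ) * z / (Real.log n : ℂ) := by
    intro n z
    unfold pl
    split_ifs with h
    · have h3 : (Real.log n : ℂ) ≠ 0 := by
        have : Real.log n ≠ 0 := (Real.log_pos (by exact_mod_cast h.one_lt)).ne'
        exact_mod_cast this
      field_simp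
    · simp
  refine ⟨fun n => ?_, fun A K => ?_, fun K => ?_⟩
  · split_ifs <;> simp
  · obtain ⟨C₁, hC₁0, hC₁⟩ := lam_ioc h1 A K
    obtain ⟨C₂, hC₂0, hC₂⟩ := pow_ioc K
    obtain ⟨K', C₃, hC₃⟩ := h2.tw A K
    refine ⟨K', 2 * (C₁ + C₃ + C₂), fun N N' τ hN hNN hN' hτ hτ' => ?_⟩
    have h3 : ∑ n ∈ Ioc N N', (if n.Prime then (1 : ℂ) else 0) * er τ (Real.log n) =
        ∑ n ∈ Ioc N N', (pl n : ℂ) * er τ (Real.log n) / (Real.log n : ℂ) :=
      Finset.sum_congr rfl fun n _ => hdiv n _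
    rw [h3]
    refine (abel_log hN hNN (fun n => (pl n : ℂ) * er τ (Real.log n))
      ((C₁ + C₃ + C₂) * N / Real.log N ^ K) fun M hM hM' => ?_).trans (le_of_eq (by ring))
    rw [hdec]
    have e1 := hC₁ N M τ hN hM (hM'.trans hN') hτ'
    have e2 := hC₂ N M τ hN hM (hM'.trans hN')
    have e3 := hC₃ N M τ hN hM (hM'.trans hN') hτ hτ'
    calc _ ≤ _ := (norm_sub_le _ _).trans (add_le_add (norm_add_le _ _) le_rfl)
      _ ≤ C₁ * N / Real.log N ^ K + C₃ * N / Real.log N ^ K + C₂ * N / Real.log N ^ K :=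
          add_le_add (add_le_add e1 e3) e2
      _ = _ := by ring
  · obtain ⟨C₁, hC₁0, hC₁⟩ := lam_ioc h1 0 K
    obtain ⟨C₂, hC₂0, hC₂⟩ := pow_ioc K
    refine ⟨2 * (C₁ + C₂) + 2 * ((2 * ((K : ℝ) + 1)) ^ (K + 1) * 2), fun N N' hN hNN hN' => ?_⟩
    have hNR : (2 : ℝ) ≤ N := by exact_mod_cast hN
    have hlN : 0 < Real.log N := Real.log_pos (by linarith)
    have hlK : 0 < Real.log N ^ K := pow_pos hlN K
    have her : ∀ x, er 0 x = 1 := fun x => by simp [er]
    have h3 : ∑ n ∈ Ioc N N', (if n.Prime then (1 : ℂ) else 0) =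
        ∑ n ∈ Ioc N N', ((pl n : ℂ) - 1) / (Real.log n : ℂ) +
          ((∑ n ∈ Ioc N N', 1 / Real.log n : ℝ) : ℂ) := by
      rw [Complex.ofReal_sum, ← Finset.sum_add_distrib]
      refine Finset.sum_congr rfl fun n _ => ?_
      have := hdiv n 1
      rw [mul_one, mul_one] at this
      rw [this, Complex.ofReal_div, Complex.ofReal_one]
      ring
    have h4 := abel_log hN hNN (fun n => (pl n : ℂ) - 1) ((C₁ + C₂) * N / Real.log N ^ K)
      fun M hM hM' => by
        have e0 : ∑ m ∈ Ioc N M, ((pl m : ℂ) - 1) = ∑ n ∈ Ioc N M, lamw n * er 0 (Real.log n) -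
            ∑ n ∈ Ioc N M, ((ArithmeticFunction.vonMangoldt n - pl n : ℝ) : ℂ) *
              er 0 (Real.log n) := by
          rw [← Finset.sum_sub_distrib]
          refine Finset.sum_congr rfl fun n _ => ?_
          rw [her]
          unfold lamw
          push_cast
          ring
        have e1 := hC₁ N M 0 hN hM (hM'.trans hN') (by simp)
        have e2 := hC₂ N M 0 hN hM (hM'.trans hN')
        rw [e0]
        calc _ ≤ _ := norm_sub_le _ _
          _ ≤ C₁ * N / Real.log N ^ K + C₂ * N / Real.log N ^ K := add_le_add e1 e2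
          _ = _ := by ring
    have h5 := sum_int hN hNN
    have h6 : 1 / Real.log N ≤ 2 * ((2 * ((K : ℝ) + 1)) ^ (K + 1) * 2) * N / Real.log N ^ K := by
      have e1 := log_small K hN
      have e2 : 1 / Real.log N ≤ 2 := by
        have e3 : Real.log 2 ≤ Real.log N := Real.log_le_log (by norm_num) hNR
        have e4 := Real.log_two_gt_d9
        rw [div_le_iff₀ hlN]
        linarith
      refine e2.trans ?_
      rw [le_div_iff₀ hlK]
      calc 2 * Real.log N ^ K ≤ 2 * ((2 * ((K : ℝ) + 1)) ^ (K + 1) * (2 * N)) := by linarith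
        _ = _ := by ring
    have h7 : ∑ n ∈ Ioc N N', (if n.Prime then (1 : ℂ) else 0) -
        ((∫ u in (N : ℝ)..N', 1 / (Real.log u) ^ 1 : ℝ) : ℂ) =
        ∑ n ∈ Ioc N N', ((pl n : ℂ) - 1) / (Real.log n : ℂ) +
          ((∑ n ∈ Ioc N N', 1 / Real.log n - ∫ u in (N : ℝ)..N', 1 / Real.log u : ℝ) : ℂ) := by
      rw [h3]
      simp only [pow_one]
      push_cast
      ring
    rw [h7]
    refine (norm_add_le _ _).trans ?_
    rw [Complex.norm_real, Real.norm_eq_abs]
    calc _ ≤ 2 * ((C₁ + C₂) * N / Real.log N ^ K) +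
          2 * ((2 * ((K : ℝ) + 1)) ^ (K + 1) * 2) * N / Real.log N ^ K :=
          add_le_add h4 (h5.trans h6)
      _ = _ := by ring

/-- the primes, from the twisted sums of the von Mangoldt function and the constant weight -/
theorem wp (h1 : S_LAM) (h2 : S_WO) : S_WP :=
  core (Pool.Agent.Y555.VK.lw h1).2.2 h2

end Pool.Agent.N31.T
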